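import Pool.Agent.TH131.Near.Defs
import Pool.Agent.TH590.JH.Pure

/-!
# Weight-monodromy for the cohomology with compact supports: definitions
-/

set_option autoImplicit false

open CategoryTheory AlgebraicGeometry

namespace Pool.Agent.TH131.WCub

open Pool.Agent.TH90.Cub Pool.Agent.TH590.JH Pool.Agent.TH131.Near

section

variable {K : Type} [Field K]

/-- `B` is isomorphic to the Tate twist `A(-t)`. -/
def IsTwist (t : ℤ) (A B : Rep K) : Prop :=
  ∃ e : A.V ≃ₗ[K] B.V, (∀ x, e (A.N x) = B.N (e x)) ∧ ∀ j x, x ∈ A.wt j ↔ e x ∈ B.wt (j + 2 * t)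

/-- `A` is isomorphic to a direct summand of `B`. -/
def IsSummand (A B : Rep K) : Prop :=
  ∃ (i : A.V →ₗ[K] B.V) (q : B.V →ₗ[K] A.V), Rep.IsHom i ∧ Rep.IsHom q ∧ ∀ x, q (i x) = x

/-- There is a long exact sequence `⋯ → A n → B n → C n → A (n + 1) → ⋯`. -/
def IsLongExact (A B C : ℤ → Rep K) : Prop :=
  ∃ (a : ∀ n : ℤ, (A n).V →ₗ[K] (B n).V) (b : ∀ n : ℤ, (B n).V →ₗ[K] (C n).V)
    (d : ∀ n : ℤ, (C n).V →ₗ[K] (A (n + 1)).V),
    (∀ n, Rep.IsHom (a n) ∧ Rep.IsHom (b n) ∧ Rep.IsHom (d n)) ∧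
    ∀ n, Function.Exact (a n) (b n) ∧ Function.Exact (b n) (d n) ∧
      Function.Exact (d n) (a (n + 1))

end

/-- `Z ⟶ X` is a closed immersion and `U ⟶ X` the open immersion of its complement, `X` separated of
finite type over `ℚ`. -/
structure IsPair {Z X U : Scheme.{0}} (f : X ⟶ Spec (CommRingCat.of ℚ)) (i : Z ⟶ X) (j : U ⟶ X) :
    Prop where
  ft : FT True ℚ f
  closed : IsClosedImmersion i
  isOpen : IsOpenImmersion j
  range : Set.range i = (Set.range j)ᶜ

/-- Two different primes `ℓ` and `p`. -/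
structure PrimePair where
  ℓ : ℕ
  p : ℕ
  prime_ℓ : ℓ.Prime
  prime_p : p.Prime
  ne : ℓ ≠ p

/-- The `ℓ`-adic cohomology with compact supports of the separated schemes `X` of finite type over
`ℚ`, with its weight filtration. -/
structure EllAdic (K : ℕ → Type) [∀ ℓ, Field (K ℓ)] where
  /-- the graded piece of weight `w` of the weight filtration of `H_c^j(X)`, the `ℓ`-adic
  cohomology with compact supports, as a representation of the Galois group of `ℚ_p` -/
  gr : ∀ (π : PrimePair) (j w : ℤ) {X : Scheme.{0}}, (X ⟶ Spec (CommRingCat.of ℚ)) → Rep (K π.ℓ)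
  iso : ∀ (π : PrimePair) (j w : ℤ) {X Y : Scheme.{0}} (e : X ≅ Y)
    (g : Y ⟶ Spec (CommRingCat.of ℚ)), FT True ℚ g →
    IsTwist 0 (gr π j w (e.hom ≫ g)) (gr π j w g)
  empty : ∀ (π : PrimePair) (j w : ℤ) {X : Scheme.{0}} (f : X ⟶ Spec (CommRingCat.of ℚ)),
    IsEmpty X → Subsingleton (gr π j w f).V
  /-- the exact sequence `⋯ → H_c^n(X \ Z) → H_c^n(X) → H_c^n(Z) → H_c^{n+1}(X \ Z) → ⋯` -/
  localization : ∀ (π : PrimePair) (w : ℤ) {Z X U : Scheme.{0}}
    (f : X ⟶ Spec (CommRingCat.of ℚ)) (i : Z ⟶ X) (j : U ⟶ X), IsPair f i j →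
    IsLongExact (fun n => gr π n w (j ≫ f)) (fun n => gr π n w f) (fun n => gr π n w (i ≫ f))
  /-- `H_c^{n+2}(X × 𝔸¹) = H_c^n(X)(-1)` -/
  line : ∀ (π : PrimePair) (n w : ℤ) (A : Type) [CommRing A] [Algebra ℚ A],
    Algebra.FiniteType ℚ A →
    IsTwist 1 (gr π n w (str ℚ A)) (gr π (n + 2) (w + 2) (str ℚ (Polynomial A)))
  /-- `H^n(X)` has weight `n` for `X` smooth and projective -/
  smooth : ∀ (π : PrimePair) (n w : ℤ) {X : Scheme.{0}} (f : X ⟶ Spec (CommRingCat.of ℚ)),
    SmoothProjective f → w ≠ n → Subsingleton (gr π n w f).V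

namespace EllAdic

variable {K : ℕ → Type} [∀ ℓ, Field (K ℓ)] (T : EllAdic K)

/-- For `X` smooth and projective this is `H^n(X)`. -/
abbrev H (π : PrimePair) (n : ℤ) {X : Scheme.{0}} (f : X ⟶ Spec (CommRingCat.of ℚ)) :
    Rep (K π.ℓ) := T.gr π n n f

/-- The monodromy-weight conjecture for `H^n(X)`, `n ≤ 2`, `X` smooth and projective over `ℚ`
(Grothendieck, Rapoport and Zink, de Jong). -/
def LowDegrees (π : PrimePair) : Prop :=
  ∀ (n : ℤ) {X : Scheme.{0}} (f : X ⟶ Spec (CommRingCat.of ℚ)),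
    SmoothProjective f → n ≤ 2 → (T.H π n f).IsPure n

/-- The graded pieces of weight `w ≥ 3` of all `H_c^j(C)` are pure of weight `w`, for all
hypersurfaces `C` over `ℚ` with an equation `g_0 t_0 + ⋯ + g_r t_r = 1`, each `g_i` being of the form
`x_a x_b - x_c`, `x_a + x_b - x_c` or `x_a - 1`. -/
def PureOnCubics (π : PrimePair) : Prop :=
  ∀ (n r : ℕ) (g : Fin (r + 1) → MvPolynomial (Fin n) ℚ), (∀ i, IsGate {1} (g i)) →
    ∀ j w : ℤ, 3 ≤ w → (T.gr π j w (str ℚ (Cubic g))).IsPure w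

/-- The graded pieces of weight `w` of all `H_c^j(X)` are pure of weight `w`, for all separated
schemes `X` of finite type over `ℚ`. -/
def PureOnAll (π : PrimePair) : Prop :=
  ∀ {X : Scheme.{0}} (f : X ⟶ Spec (CommRingCat.of ℚ)), FT True ℚ f →
    ∀ j w : ℤ, (T.gr π j w f).IsPure w

end EllAdic

/-- The smooth proper varieties `Y` over finite extensions of `ℚ_p`, for all primes `p`, with
their `ℓ`-adic cohomology for `ℓ ≠ p`. -/
structure LocalVarieties {K : ℕ → Type} [∀ ℓ, Field (K ℓ)] (T : EllAdic K) where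
  Variety : Type 1
  /-- the residue characteristic -/
  p : Variety → ℕ
  prime : ∀ Y, (p Y).Prime
  /-- `H^n(Y)`, the `ℓ`-adic cohomology -/
  H : Variety → ∀ ℓ : ℕ, ℤ → Rep (K ℓ)
  /-- the base change of a smooth projective `X` over `ℚ` to `ℚ_p` -/
  baseChange : ∀ (π : PrimePair) {X : Scheme.{0}} (f : X ⟶ Spec (CommRingCat.of ℚ)),
    SmoothProjective f → ∃ Y : Variety, p Y = π.p ∧ ∀ n, IsTwist 0 (H Y π.ℓ n) (T.H π n f)
  /-- local constancy of the cohomology of the fibres of a family: `Y` may be replaced by a variety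
  over a number field, which is considered as a smooth projective scheme `X` over `ℚ` -/
  approximation : ∀ (Y : Variety) (π : PrimePair), p Y = π.p → ∀ n : ℤ,
    ∃ (X : Scheme.{0}) (f : X ⟶ Spec (CommRingCat.of ℚ)), SmoothProjective f ∧
      IsSummand (H Y π.ℓ n) (T.H π n f)

/-- The monodromy-weight conjecture for all smooth proper varieties over finite extensions of `ℚ_p`
and their `ℓ`-adic cohomology. -/
def LocalVarieties.MonodromyWeight {K : ℕ → Type} [∀ ℓ, Field (K ℓ)] {T : EllAdic K}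
    (L : LocalVarieties T) (π : PrimePair) : Prop :=
  ∀ Y : L.Variety, L.p Y = π.p → ∀ n : ℤ, (L.H Y π.ℓ n).IsPure n

/-- Resolution of singularities (Hironaka) and Chow's lemma in the form: a property of separated
schemes of finite type over `ℚ` which only depends on the isomorphism class, holds for the empty
scheme, holds for the third of `X`, a closed subscheme `Z` and its complement `U` if it holds for two
of them, and holds for all smooth projective `X`, holds for all `X`. -/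
def Resolution : Prop :=
  ∀ P : (∀ X : Scheme.{0}, (X ⟶ Spec (CommRingCat.of ℚ)) → Prop), IsDevissage True ℚ P →
    (∀ {Z X U : Scheme.{0}} (f : X ⟶ Spec (CommRingCat.of ℚ)) (i : Z ⟶ X) (j : U ⟶ X),
      IsPair f i j → P X f → P Z (i ≫ f) → P U (j ≫ f)) →
    (∀ {X : Scheme.{0}} (f : X ⟶ Spec (CommRingCat.of ℚ)), SmoothProjective f → P X f) →
    ∀ {X : Scheme.{0}} (f : X ⟶ Spec (CommRingCat.of ℚ)), FT True ℚ f → P X f

end Pool.Agent.TH131.WCub
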