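import Pool.Agent.TH131.WCub.Defs

/-!
# Weight-monodromy for the cohomology with compact supports: the dévissage
-/

set_option autoImplicit false

open CategoryTheory AlgebraicGeometry

namespace Pool.Agent.TH131.WCub

open Pool.Agent.TH90.Cub Pool.Agent.TH590.JH Pool.Agent.TH131.Near

section

variable {K : Type} [Field K]

lemma exists_comp (A : Rep K) (x : A.V) (j : ℤ) : ∃ y ∈ A.wt j, ∀ (B : Rep K)
    (d : A.V →ₗ[K] B.V), (∀ j, ∀ x ∈ A.wt j, d x ∈ B.wt j) → d x ∈ B.wt j → d y = d x := by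
  classical
  let c := (LinearEquiv.ofBijective (DirectSum.coeLinearMap A.wt) A.internal).symm x
  have hc : DirectSum.coeLinearMap A.wt c = x := LinearEquiv.apply_symm_apply
    (LinearEquiv.ofBijective (DirectSum.coeLinearMap A.wt) A.internal) x
  have hx : x = ∑ i ∈ DFinsupp.support c, (c i : A.V) := by
    conv_lhs => rw [← hc, DirectSum.coeLinearMap_eq_dfinsuppSum]
    rfl
  refine ⟨c j, (c j).2, fun B d hd hdx => ?_⟩
  -- compare the components of `d x`
  have hu : ∀ (f : ℤ → B.V), (∀ i, f i ∈ B.wt i) → ∀ s : Finset ℤ, j ∈ s →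
      ∑ i ∈ s, f i ∈ B.wt j → f j = ∑ i ∈ s, f i := by
    intro f hf s hjs hs
    have hind := B.internal.submodule_iSupIndep
    have h1 : ∑ i ∈ s.erase j, f i ∈ ⨆ i, ⨆ (_ : i ≠ j), B.wt i := by
      refine Submodule.sum_mem _ fun i hi => ?_
      exact Submodule.mem_iSup_of_mem i (Submodule.mem_iSup_of_mem (Finset.ne_of_mem_erase hi) (hf i))
    have h2 : ∑ i ∈ s.erase j, f i ∈ B.wt j := by
      rw [← Finset.add_sum_erase s f hjs] at hs
      exact (Submodule.add_mem_iff_right _ (hf j)).1 hs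
    have h3 := Submodule.disjoint_def.1 (hind j) _ h2 h1
    rw [← Finset.add_sum_erase s f hjs, h3, add_zero]
  have h4 := hu (fun i => d (c i)) (fun i => hd i _ (c i).2) (insert j (DFinsupp.support c))
    (Finset.mem_insert_self _ _)
  have h5 : ∑ i ∈ insert j (DFinsupp.support c), d (c i : A.V) = d x := by
    rw [← map_sum]
    congr 1
    by_cases hj : j ∈ DFinsupp.support c
    · rw [Finset.insert_eq_of_mem hj, ← hx]
    · rw [Finset.sum_insert hj, ← hx]
      have : c j = 0 := by simpa using hj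
      rw [this]
      simp
  rw [h5] at h4
  exact h4 hdx

lemma pow_hom {A B : Rep K} {d : A.V →ₗ[K] B.V} (h : ∀ x, d (A.N x) = B.N (d x)) (r : ℕ) (x : A.V) :
    d ((A.N ^ r) x) = (B.N ^ r) (d x) := by
  induction r generalizing x with
  | zero => simp
  | succ r ih => rw [pow_succ, Module.End.mul_apply, ih, h, pow_succ, Module.End.mul_apply]

lemma pow_lower (A : Rep K) (r : ℕ) {j : ℤ} {x : A.V} (hx : x ∈ A.wt j) :
    (A.N ^ r) x ∈ A.wt (j - 2 * r) := by
  induction r with
  | zero => simpa using hx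
  | succ r ih =>
    rw [pow_succ', Module.End.mul_apply]
    have h1 := A.lower _ _ ih
    convert h1 using 2
    push_cast
    ring

lemma IsTwist.pow {t : ℤ} {A B : Rep K} {e : A.V ≃ₗ[K] B.V} (h : ∀ x, e (A.N x) = B.N (e x))
    (r : ℕ) (x : A.V) : e ((A.N ^ r) x) = (B.N ^ r) (e x) := by
  induction r generalizing x with
  | zero => simp
  | succ r ih => rw [pow_succ, Module.End.mul_apply, ih, h, pow_succ, Module.End.mul_apply]

lemma IsTwist.isPure_iff {t : ℤ} {A B : Rep K} (h : IsTwist t A B) (l : ℤ) :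
    A.IsPure l ↔ B.IsPure (l + 2 * t) := by
  obtain ⟨e, h1, h2⟩ := h
  have hp := IsTwist.pow (t := t) h1
  have e1 : ∀ r : ℕ, l + 2 * t + (r : ℤ) = l + r + 2 * t := fun r => by ring
  have e2 : ∀ r : ℕ, l + 2 * t - (r : ℤ) = l - r + 2 * t := fun r => by ring
  have hm : ∀ (j : ℤ) (y : B.V), y ∈ B.wt (j + 2 * t) ↔ e.symm y ∈ A.wt j := fun j y => by
    rw [h2 j, LinearEquiv.apply_symm_apply]
  constructor
  · intro hA r
    rw [e1, e2]
    constructor
    · intro x hx hx0
      have h3 := (hA r).1 (e.symm x) ((hm _ _).1 hx) (by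
        apply e.injective
        rw [hp, LinearEquiv.apply_symm_apply, hx0, map_zero])
      rw [← LinearEquiv.apply_symm_apply e x, h3, map_zero]
    · intro y hy
      obtain ⟨x, hx, hxy⟩ := (hA r).2 (e.symm y) ((hm _ _).1 hy)
      refine ⟨e x, (h2 _ _).1 hx, ?_⟩
      rw [← hp, hxy, LinearEquiv.apply_symm_apply]
  · intro hB r
    constructor
    · intro x hx hx0
      have h3 := (hB r).1 (e x) (by rw [e1]; exact (h2 _ _).1 hx) (by rw [← hp, hx0, map_zero])
      exact e.injective (by rw [h3, map_zero])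
    · intro y hy
      obtain ⟨x, hx, hxy⟩ := (hB r).2 (e y) (by rw [e2]; exact (h2 _ _).1 hy)
      rw [e1] at hx
      refine ⟨e.symm x, (hm _ _).1 hx, ?_⟩
      apply e.injective
      rw [hp, LinearEquiv.apply_symm_apply, hxy]

lemma isPure_of_subsingleton (A : Rep K) (h : Subsingleton A.V) (l : ℤ) : A.IsPure l := by
  intro r
  exact ⟨fun x _ _ => Subsingleton.elim _ _, fun y _ =>
    ⟨0, Submodule.zero_mem _, Subsingleton.elim _ _⟩⟩

lemma isPure_of_isSummand {A B : Rep K} (h : IsSummand A B) {l : ℤ} (hB : B.IsPure l) :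
    A.IsPure l := by
  obtain ⟨i, q, hi, hq, hqi⟩ := h
  intro r
  constructor
  · intro x hx hx0
    have h1 := (hB r).1 (i x) (hi.2 _ _ hx) (by rw [← pow_hom hi.1, hx0, map_zero])
    rw [← hqi x, h1, map_zero]
  · intro y hy
    obtain ⟨x, hx, hxy⟩ := (hB r).2 (i y) (hi.2 _ _ hy)
    exact ⟨q x, hq.2 _ _ hx, by rw [← pow_hom hq.1, hxy, hqi]⟩

/-- Five lemma: in an exact sequence `A → B → C → D → E` of representations, `C` is pure of
weight `l` if `A`, `B`, `D`, `E` are pure of weight `l`. -/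
lemma isPure_of_exact {A B C D E : Rep K} {f : A.V →ₗ[K] B.V} {g : B.V →ₗ[K] C.V}
    {h : C.V →ₗ[K] D.V} {k : D.V →ₗ[K] E.V} (hf : Rep.IsHom f) (hg : Rep.IsHom g)
    (hh : Rep.IsHom h) (hk : Rep.IsHom k) (h1 : Function.Exact f g) (h2 : Function.Exact g h)
    (h3 : Function.Exact h k) {l : ℤ} (hA : A.IsPure l) (hB : B.IsPure l) (hD : D.IsPure l)
    (hE : E.IsPure l) : C.IsPure l := by
  have strict : ∀ {X Y Z : Rep K} {u : X.V →ₗ[K] Y.V} {v : Y.V →ₗ[K] Z.V}, Rep.IsHom u →
      Function.Exact u v → ∀ j, ∀ y ∈ Y.wt j, v y = 0 → ∃ x ∈ X.wt j, u x = y := by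
    intro X Y Z u v hu huv j y hy hy0
    obtain ⟨x, hx⟩ := (huv y).1 hy0
    obtain ⟨x', hx', hx''⟩ := exists_comp X x j
    exact ⟨x', hx', by rw [hx'' Y u hu.2 (by rw [hx]; exact hy), hx]⟩
  intro r
  constructor
  · intro x hx hx0
    have e1 : h x = 0 := (hD r).1 _ (hh.2 _ _ hx) (by rw [← pow_hom hh.1, hx0, map_zero])
    obtain ⟨b, hb, rfl⟩ := strict hg h2 _ x hx e1
    have hb' : (B.N ^ r) b ∈ B.wt (l - r) := by
      have := pow_lower B r hb
      convert this using 2
      ring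
    obtain ⟨a, ha, hab⟩ := strict hf h1 _ _ hb' (by rw [pow_hom hg.1, hx0])
    obtain ⟨a', ha', haa⟩ := (hA r).2 a ha
    have e2 : b - f a' = 0 := by
      refine (hB r).1 _ (sub_mem hb (hf.2 _ _ ha')) ?_
      rw [map_sub, ← pow_hom hf.1, haa, hab, sub_self]
    rw [sub_eq_zero.1 e2]
    exact (h1 _).2 ⟨a', rfl⟩
  · intro y hy
    obtain ⟨d, hd, hdy⟩ := (hD r).2 (h y) (hh.2 _ _ hy)
    have e1 : k d = 0 := by
      refine (hE r).1 _ (hk.2 _ _ hd) ?_
      rw [← pow_hom hk.1, hdy]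
      exact (h3 _).2 ⟨y, rfl⟩
    obtain ⟨c, hc, rfl⟩ := strict hh h3 _ d hd e1
    have hc' : (C.N ^ r) c ∈ C.wt (l - r) := by
      have := pow_lower C r hc
      convert this using 2
      ring
    obtain ⟨b, hb, hby⟩ := strict hg h2 _ (y - (C.N ^ r) c) (sub_mem hy hc') (by
      rw [map_sub, pow_hom hh.1, hdy, sub_self])
    obtain ⟨b', hb', hbb⟩ := (hB r).2 b hb
    refine ⟨c + g b', add_mem hc (hg.2 _ _ hb'), ?_⟩
    rw [map_add, ← pow_hom hg.1, hbb, hby]
    abel

end

namespace EllAdic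

variable {K : ℕ → Type} [∀ ℓ, Field (K ℓ)] (T : EllAdic K)

/-- the graded pieces whose weight satisfies `Q` are pure -/
def Pure (π : PrimePair) (Q : ℤ → Prop) :
    ∀ X : Scheme.{0}, (X ⟶ Spec (CommRingCat.of ℚ)) → Prop :=
  fun _ f => ∀ n w : ℤ, Q w → (T.gr π n w f).IsPure w

theorem pure_devissage (π : PrimePair) (Q : ℤ → Prop) : IsDevissage True ℚ (T.Pure π Q) where
  iso := by
    intro X Y e g hg hX n w hw
    have := ((T.iso π n w e g hg).isPure_iff w).1 (hX n w hw)
    simpa using this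
  empty := by
    intro X f hX n w _
    exact isPure_of_subsingleton _ (T.empty π n w f hX) w
  closed := by
    intro Z X U f i j hf hi hj hr hX hU n w hw
    obtain ⟨a, b, d, hh, hex⟩ := T.localization π w f i j ⟨hf, hi, hj, hr⟩
    exact isPure_of_exact (hh n).1 (hh n).2.1 (hh n).2.2 (hh (n + 1)).1 (hex n).1 (hex n).2.1
      (hex n).2.2 (hU n w hw) (hX n w hw) (hU (n + 1) w hw) (hX (n + 1) w hw)
  total := by
    intro Z X U f i j hf hi hj hr hZ hU n w hw
    obtain ⟨a, b, d, hh, hex⟩ := T.localization π w f i j ⟨hf, hi, hj, hr⟩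
    have h1 : n - 1 + 1 = n := by ring
    have key : ∀ m, m + 1 = n → (T.gr π n w f).IsPure w := by
      rintro m rfl
      exact isPure_of_exact (hh m).2.2 (hh (m + 1)).1 (hh (m + 1)).2.1 (hh (m + 1)).2.2
        (hex m).2.2 (hex (m + 1)).1 (hex (m + 1)).2.1 (hZ m w hw) (hU (m + 1) w hw)
        (hZ (m + 1) w hw) (hU (m + 1 + 1) w hw)
    exact key (n - 1) h1

theorem pure_open (π : PrimePair) (Q : ℤ → Prop) {Z X U : Scheme.{0}} (f : X ⟶ Spec (CommRingCat.of ℚ))
    (i : Z ⟶ X) (j : U ⟶ X) (hp : IsPair f i j) (hX : T.Pure π Q X f)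
    (hZ : T.Pure π Q Z (i ≫ f)) : T.Pure π Q U (j ≫ f) := by
  intro n w hw
  obtain ⟨a, b, d, hh, hex⟩ := T.localization π w f i j hp
  have h1 : n - 1 + 1 = n := by ring
  have key : ∀ m, m + 1 = n → (T.gr π n w (j ≫ f)).IsPure w := by
    rintro m rfl
    exact isPure_of_exact (hh m).2.1 (hh m).2.2 (hh (m + 1)).1 (hh (m + 1)).2.1
      (hex m).2.1 (hex m).2.2 (hex (m + 1)).1 (hX m w hw) (hZ m w hw)
      (hX (m + 1) w hw) (hZ (m + 1) w hw)
  exact key (n - 1) h1

theorem pure_A1 (π : PrimePair) : A1 (T.Pure π fun _ => True) := by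
  intro A _ _ hA
  constructor
  · intro h n w _
    have h1 := ((T.line π (n - 2) (w - 2) A hA).isPure_iff (w - 2)).1 (h _ _ trivial)
    have e1 : n - 2 + 2 = n := by ring
    have e2 : w - 2 + 2 = w := by ring
    have e3 : w - 2 + 2 * 1 = w := by ring
    rw [e1, e2, e3] at h1
    exact h1
  · intro h n w _
    have h1 := h (n + 2) (w + 2) trivial
    exact ((T.line π n w A hA).isPure_iff w).2 (by
      have e3 : w + 2 * 1 = w + 2 := by ring
      rw [e3]
      exact h1)

/-- Purity for all schemes follows from purity for smooth projective ones, by resolution of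
singularities. -/
theorem pure_of_smooth (hres : Resolution) (π : PrimePair) (Q : ℤ → Prop)
    (h : ∀ (n : ℤ) {X : Scheme.{0}} (f : X ⟶ Spec (CommRingCat.of ℚ)),
      SmoothProjective f → Q n → (T.H π n f).IsPure n)
    {X : Scheme.{0}} (f : X ⟶ Spec (CommRingCat.of ℚ)) (hf : FT True ℚ f) : T.Pure π Q X f := by
  refine hres (T.Pure π Q) (T.pure_devissage π Q) (fun f i j hp hX hZ => T.pure_open π Q f i j hp hX hZ) ?_ f hf
  intro X f hf n w hw
  by_cases hn : w = n
  · subst hn
    exact h w f hf hw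
  · exact isPure_of_subsingleton _ (T.smooth π n w f hf hn) w

/-- Purity for all schemes follows from purity for the cubic hypersurfaces in weights at least
`3`. -/
theorem pure_of_cubics (hres : Resolution) (π : PrimePair) (hlow : T.LowDegrees π)
    (h : ∀ (n r : ℕ) (g : Fin (r + 1) → MvPolynomial (Fin n) ℚ), (∀ i, IsGate {1} (g i)) →
      ∀ j w : ℤ, 3 ≤ w → (T.gr π j w (str ℚ (Cubic g))).IsPure w)
    {X : Scheme.{0}} (f : X ⟶ Spec (CommRingCat.of ℚ)) (hf : FT True ℚ f) :
    T.Pure π (fun _ => True) X f := by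
  refine all_of_cubics' (S := {1}) closure_one_rat (Set.mem_singleton 1)
    (T.pure_devissage π fun _ => True) (T.pure_A1 π) ?_ f hf
  intro n r g hg j w _
  by_cases hw : 3 ≤ w
  · exact h n r g hg j w hw
  · exact T.pure_of_smooth hres π (fun w => w ≤ 2) (fun n X f hf hn => hlow n f hf hn)
      (str ℚ (Cubic g)) (ft_hyp g) j w (by omega)

end EllAdic

/-- The main theorem. -/
theorem main {K : ℕ → Type} [∀ ℓ, Field (K ℓ)] (T : EllAdic K) (L : LocalVarieties T)
    (hres : Resolution) (π : PrimePair) (hlow : T.LowDegrees π) :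
    (L.MonodromyWeight π ↔ T.PureOnCubics π) ∧ (L.MonodromyWeight π → T.PureOnAll π) := by
  have key : L.MonodromyWeight π → T.PureOnAll π := by
    intro h X f hf j w
    refine T.pure_of_smooth hres π (fun _ => True) ?_ f hf j w trivial
    intro n X f hf _
    obtain ⟨Y, hY, hiso⟩ := L.baseChange π f hf
    have := ((hiso n).isPure_iff n).1 (h Y hY n)
    simpa using this
  refine ⟨⟨fun h n r g _ j w _ => key h _ (ft_hyp g) j w, fun h Y hY n => ?_⟩, key⟩
  obtain ⟨X, f, hf, hs⟩ := L.approximation Y π hY n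
  exact isPure_of_isSummand hs (T.pure_of_cubics hres π hlow h f hf.ft n n trivial)

end Pool.Agent.TH131.WCub
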